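import Pool.Agent.Helper92.Ru.GoalsS

set_option autoImplicit false

namespace Pool.Agent.Helper36.Ru

open Pool.Agent.Helper92.Ru

theorem cauchyBinet : CauchyBinet := by
  intro k _ r N P Q
  classical
  have h1 : (P * Q).det = ∑ f : Fin r → Fin N, (∏ i, P i (f i)) * (Q.submatrix f id).det := by
    have e : (P * Q) = fun i => ∑ j, P i j • Q j := by
      funext i a
      simp [Matrix.mul_apply, Finset.sum_apply]
    have e2 : (P * Q).det =
        (Matrix.detRowAlternating (n := Fin r) (R := k)).toMultilinearMap
          (fun i => ∑ j, P i j • Q j) := by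
      rw [e]; rfl
    rw [e2, MultilinearMap.map_sum]
    refine Finset.sum_congr rfl fun f _ => ?_
    rw [MultilinearMap.map_smul_univ]
    rfl
  rw [h1]
  -- restrict to injective functions
  have h2 : ∑ f : Fin r → Fin N, (∏ i, P i (f i)) * (Q.submatrix f id).det =
      ∑ f ∈ Finset.univ.filter (fun f : Fin r → Fin N => Function.Injective f),
        (∏ i, P i (f i)) * (Q.submatrix f id).det := by
    rw [Finset.sum_filter]
    refine Finset.sum_congr rfl fun f _ => ?_
    split_ifs with hf
    · rfl
    · have : ∃ a b, f a = f b ∧ a ≠ b := by
        simpa [Function.Injective] using hf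
      obtain ⟨a, b, hab, hne⟩ := this
      have : (Q.submatrix f id).det = 0 := by
        apply Matrix.det_zero_of_row_eq hne
        funext c
        simp [Matrix.submatrix_apply, hab]
      rw [this, mul_zero]
  rw [h2]
  have h3 : ∑ f ∈ Finset.univ.filter (fun f : Fin r → Fin N => Function.Injective f),
        (∏ i, P i (f i)) * (Q.submatrix f id).det =
      ∑ p : JJ r N × Equiv.Perm (Fin r),
        (∏ i, P i (p.1.emb (p.2 i))) * (Q.submatrix (fun i => p.1.emb (p.2 i)) id).det := by
    symm
    apply Finset.sum_bij (fun (p : JJ r N × Equiv.Perm (Fin r)) _ => fun i => p.1.emb (p.2 i))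
    · intro p _
      simp only [Finset.mem_filter, Finset.mem_univ, true_and]
      exact p.1.emb.injective.comp p.2.injective
    · rintro ⟨K, σ⟩ _ ⟨K', σ'⟩ _ h
      have hr : ∀ (K : JJ r N) (σ : Equiv.Perm (Fin r)),
          Set.range (fun i => K.emb (σ i)) = (K.1 : Set (Fin N)) := by
        intro K σ
        have : Set.range (fun i => K.emb (σ i)) = Set.range (K.emb ∘ σ) := rfl
        rw [this, σ.surjective.range_comp]
        exact Finset.range_orderEmbOfFin K.1 K.2
      have hK : K = K' := by
        apply Subtype.ext
        have : (K.1 : Set (Fin N)) = (K'.1 : Set (Fin N)) := by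
          rw [← hr K σ, ← hr K' σ']
          exact congrArg Set.range h
        exact_mod_cast this
      subst hK
      have hσ : σ = σ' := by
        apply Equiv.ext
        intro i
        exact K.emb.injective (congrFun h i)
      rw [hσ]
    · intro f hf
      simp only [Finset.mem_filter, Finset.mem_univ, true_and] at hf
      let K : JJ r N := ⟨Finset.univ.image f, by
        rw [Finset.card_image_of_injective _ hf]; simp⟩
      have hK : Set.range K.emb = (K.1 : Set (Fin N)) := Finset.range_orderEmbOfFin K.1 K.2
      have hex : ∀ i, ∃ j, K.emb j = f i := by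
        intro i
        have : f i ∈ (K.1 : Set (Fin N)) := by
          simp [K]
        rw [← hK] at this
        exact this
      choose g hg using hex
      have hginj : Function.Injective g := by
        intro a b hab
        apply hf
        rw [← hg a, ← hg b, hab]
      have hgbij : Function.Bijective g := Finite.injective_iff_bijective.1 hginj
      refine ⟨(K, Equiv.ofBijective g hgbij), Finset.mem_univ _, ?_⟩
      funext i
      exact hg i
    · intro p _
      rfl
  rw [h3, Fintype.sum_prod_type]
  refine Finset.sum_congr rfl fun K _ => ?_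
  have h4 : ∀ σ : Equiv.Perm (Fin r), (Q.submatrix (fun i => K.emb (σ i)) id).det =
      (Equiv.Perm.sign σ : k) * (Q.submatrix K.emb id).det := by
    intro σ
    have := Matrix.det_permute σ (Q.submatrix K.emb id)
    rw [← this]
    rfl
  simp only [h4]
  have h5 : (P.submatrix id K.emb).det = ∑ σ : Equiv.Perm (Fin r),
      (Equiv.Perm.sign σ : k) * ∏ i, P i (K.emb (σ i)) := by
    rw [← Matrix.det_transpose, Matrix.det_apply']
    rfl
  rw [h5, Finset.sum_mul]
  refine Finset.sum_congr rfl fun σ _ => ?_
  ring

end Pool.Agent.Helper36.Ru
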